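import Pool.Agent.Helper65.CL.Defs

/-!
# BR: sieve points

`SPM K M R`: the `K`-algebra `R` has many points with values in `M` at which finitely many given
elements are integral at all bad places.
-/

set_option autoImplicit false

namespace Pool.Agent.Helper83.BR

open NumberField Pool.Agent.Helper4.CB Pool.Agent.Helper69.CB

/-- **SPM** -/
def SPM (K : Type) [Field K] (M : Type) [Field M] [NumberField M] [Algebra K M]
    (R : Type) [CommRing R] [Algebra K R] : Prop :=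
  ∀ Λ : Finset ℕ, (∀ l ∈ Λ, l.Prime) → ∀ G : Finset R, ∃ J0 : ℕ, ∀ J, J0 ≤ J →
    ∀ f : R, f ≠ 0 → ∃ φ : R →ₐ[K] M, φ f ≠ 0 ∧
      ∀ p : Pl M, Pool.Agent.Helper65.CL.Bad Λ J p → ∀ g ∈ G, vl p (φ g) ≤ 1

/-- **SP** -/
def SP (K : Type) [Field K] [NumberField K] (R : Type) [CommRing R] [Algebra K R] : Prop :=
  ∀ Λ : Finset ℕ, (∀ l ∈ Λ, l.Prime) → ∀ G : Finset R, ∃ J0 : ℕ, ∀ J, J0 ≤ J →
    ∀ f : R, f ≠ 0 → ∃ φ : R →ₐ[K] K, φ f ≠ 0 ∧
      ∀ p : Pl K, Pool.Agent.Helper65.CL.Bad Λ J p → ∀ g ∈ G, vl p (φ g) ≤ 1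

end Pool.Agent.Helper83.BR
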