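import Pool.Agent.Helper83.BR.Close
import Pool.Agent.Helper83.RelL.Harm
import Pool.Agent.Helper83.Rel.Final

/-!
# BR: cones, points with values in a number field `M` over `K`
-/

set_option autoImplicit false

namespace Pool.Agent.Helper83.BR

open NumberField Pool.Agent.Helper4.CB MvPolynomial
open Pool.Agent.Helper69.CB Filter Pool.Agent.Helper83.Rel Pool.Agent.Helper83.RelL

/-- at all bad places the coordinates of the point `φ` are integral and one of them is a unit -/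
def NrmM {K : Type} [Field K] {M : Type} [Field M] [NumberField M] [Algebra K M]
    {R : Type} [CommRing R] [Algebra K R] (Λ : Finset ℕ) (J : ℕ) {N : ℕ} (τ : Fin N → R)
    (φ : R →ₐ[K] M) : Prop :=
  ∀ p : Pl M, Pool.Agent.Helper65.CL.Bad Λ J p →
    (∀ l, vl p (φ (τ l)) ≤ 1) ∧ ∃ l, vl p (φ (τ l)) = 1

/-- **R2.** dense normalised points of a cone, over the scaling lemma R1 -/
theorem exists_nrmM {K : Type} [Field K] {M : Type} [Field M] [NumberField M] [Algebra K M] {Λ : Finset ℕ} (hΛ : ∀ l ∈ Λ, 2 ≤ l)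
    {R : Type} [CommRing R] [IsDomain R]
    [Algebra K R] {N : ℕ}
    (hR1 : ∃ J0 : ℕ, ∀ J, J0 ≤ J →
      ∀ t : Fin N → M, t ≠ 0 → ∃ l : M, l ≠ 0 ∧ ∀ p : Pl M, Pool.Agent.Helper65.CL.Bad Λ J p →
        (∀ i, vl p (l * t i) ≤ 1) ∧ ∃ i, vl p (l * t i) = 1)
    (τ : Fin N → R) (hgen : Algebra.adjoin K (Set.range τ) = ⊤)
    (hcone : ∀ φ : R →ₐ[K] M, ∃ ψ : R →ₐ[K] Polynomial M, ∀ l, ψ (τ l) = Polynomial.X * Polynomial.C (φ (τ l)))
    (hdense : ∀ f : R, f ≠ 0 → ∃ φ : R →ₐ[K] M, φ f ≠ 0) (hτ : ∃ l, τ l ≠ 0) :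
    ∃ J0 : ℕ, ∀ J, J0 ≤ J → ∀ f : R, f ≠ 0 → ∃ φ : R →ₐ[K] M, NrmM (K := K) (M := M) Λ J τ φ ∧ φ f ≠ 0 := by
  classical
  obtain ⟨J1, hJ1⟩ := hR1
  obtain ⟨J2, hJ2⟩ := Pool.Agent.Helper56.CL.start M hΛ {(2 : M)} 0
  refine ⟨max J1 J2, fun J hJ f hf => ?_⟩
  obtain ⟨l0, hl0⟩ := hτ
  obtain ⟨φ, hφ⟩ := hdense (f * τ l0) (mul_ne_zero hf hl0)
  rw [map_mul] at hφ
  have hf0 : φ f ≠ 0 := left_ne_zero_of_mul hφ
  have ht0 : (fun l => φ (τ l)) ≠ 0 := by
    intro h
    exact right_ne_zero_of_mul hφ (congrFun h l0)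
  obtain ⟨lam, hlam, hp⟩ := hJ1 J ((le_max_left _ _).trans hJ) (fun l => φ (τ l)) ht0
  obtain ⟨ψ, hψ⟩ := hcone φ
  -- `ψ` at `1` is `φ`
  have hψ1 : ((Polynomial.aeval (1 : M)).restrictScalars K).comp ψ = φ := by
    refine AlgHom.ext_of_adjoin_eq_top hgen ?_
    rintro _ ⟨l, rfl⟩
    simp [hψ l]
  have hψf : ψ f ≠ 0 := by
    intro h
    apply hf0
    rw [← hψ1, AlgHom.comp_apply, h, map_zero]
  -- a good multiple of `lam`
  obtain ⟨k, hk⟩ : ∃ k : ℕ, (ψ f).eval (lam * 2 ^ k) ≠ 0 := by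
    by_contra hcon
    push Not at hcon
    apply hψf
    refine Polynomial.eq_zero_of_infinite_isRoot _ ?_
    have hinj : Function.Injective (fun k : ℕ => lam * (2 : M) ^ k) := by
      intro a b hab
      have h1 : (2 : M) ^ a = 2 ^ b := mul_left_cancel₀ hlam hab
      have h2 : ((2 ^ a : ℕ) : M) = ((2 ^ b : ℕ) : M) := by push_cast; exact h1
      exact Nat.pow_right_injective le_rfl (Nat.cast_injective h2)
    refine (Set.infinite_range_of_injective hinj).mono ?_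
    rintro _ ⟨k, rfl⟩
    exact hcon k
  refine ⟨((Polynomial.aeval (lam * 2 ^ k)).restrictScalars K).comp ψ, ?_, ?_⟩
  · intro p hpB
    have h2 : vl p (2 : M) = 1 :=
      (hJ2 J ((le_max_right _ _).trans hJ) p hpB).2 2 (Finset.mem_singleton_self _) two_ne_zero
    have hval : ∀ l, vl p ((((Polynomial.aeval (lam * 2 ^ k)).restrictScalars K).comp ψ) (τ l)) =
        vl p (lam * φ (τ l)) := by
      intro l
      rw [AlgHom.comp_apply, hψ l, map_mul, AlgHom.restrictScalars_apply, AlgHom.restrictScalars_apply, Polynomial.aeval_X, Polynomial.aeval_C,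
        Algebra.algebraMap_self_apply, mul_assoc, mul_comm ((2 : M) ^ k), ← mul_assoc, map_mul,
        map_pow, h2, one_pow, mul_one]
    obtain ⟨h3, i, h4⟩ := hp p hpB
    exact ⟨fun l => (hval l).trans_le (h3 l), i, (hval i).trans h4⟩
  · rw [AlgHom.comp_apply, AlgHom.restrictScalars_apply, Polynomial.coe_aeval_eq_eval]
    exact hk


/-- **R3.** for every element `c` of the ring, `J` large: integral at all points with integral
coordinates (coefficients of one polynomial expression of `c` in the `τ l`) -/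
theorem int_of_genM {K : Type} [Field K] {M : Type} [Field M] [NumberField M] [Algebra K M] {Λ : Finset ℕ} (hΛ : ∀ l ∈ Λ, 2 ≤ l)
    {R : Type} [CommRing R]
    [Algebra K R] {N : ℕ} (τ : Fin N → R) (hgen : Algebra.adjoin K (Set.range τ) = ⊤) (c : R) :
    ∃ J0 : ℕ, ∀ J, J0 ≤ J → ∀ φ : R →ₐ[K] M, ∀ p : Pl M, Pool.Agent.Helper65.CL.Bad Λ J p → (∀ l, vl p (φ (τ l)) ≤ 1) →
      vl p (φ c) ≤ 1 := by
  classical
  have hc : c ∈ Algebra.adjoin K (Set.range τ) := by rw [hgen]; exact Algebra.mem_top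
  rw [Algebra.adjoin_range_eq_range_aeval] at hc
  obtain ⟨P, rfl⟩ := (AlgHom.mem_range _).1 hc
  obtain ⟨J0, hJ0⟩ := Pool.Agent.Helper56.CL.start M hΛ (P.support.image fun m => algebraMap K M (P.coeff m)) 0
  refine ⟨J0, fun J hJ φ p hp hl => ?_⟩
  have h1 : φ (MvPolynomial.aeval τ P) =
      ∑ m ∈ P.support, algebraMap K M (P.coeff m) * ∏ l, φ (τ l) ^ m l := by
    rw [MvPolynomial.aeval_def, MvPolynomial.eval₂_eq', map_sum]
    refine Finset.sum_congr rfl fun m _ => ?_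
    rw [map_mul, map_prod, AlgHom.commutes]
    simp only [map_pow]
  rw [h1]
  refine Valuation.map_sum_le _ fun m hm => ?_
  rw [map_mul, map_prod]
  have h2 : vl p (algebraMap K M (P.coeff m)) = 1 :=
    (hJ0 J hJ p hp).2 _ (Finset.mem_image_of_mem (fun m => algebraMap K M (P.coeff m)) hm) (fun h0 =>
      MvPolynomial.mem_support_iff.1 hm ((map_eq_zero_iff _ (algebraMap K M).injective).1 h0))
  rw [h2, one_mul]
  refine Finset.prod_le_one' fun l _ => ?_
  rw [map_pow]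
  exact pow_le_one' (hl l) _

/-- R3 for a finite set -/
theorem int_of_gen_finsetM {K : Type} [Field K] {M : Type} [Field M] [NumberField M] [Algebra K M] {Λ : Finset ℕ} (hΛ : ∀ l ∈ Λ, 2 ≤ l)
    {R : Type} [CommRing R]
    [Algebra K R] {N : ℕ} (τ : Fin N → R) (hgen : Algebra.adjoin K (Set.range τ) = ⊤)
    (C : Set R) (hC : C.Finite) :
    ∃ J0 : ℕ, ∀ J, J0 ≤ J → ∀ φ : R →ₐ[K] M, ∀ p : Pl M, Pool.Agent.Helper65.CL.Bad Λ J p → (∀ l, vl p (φ (τ l)) ≤ 1) →
      ∀ c ∈ C, vl p (φ c) ≤ 1 := by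
  classical
  choose J0 hJ0 using fun c : R => int_of_genM (K := K) (M := M) hΛ τ hgen c
  refine ⟨∑ c ∈ hC.toFinset, J0 c, fun J hJ φ p hp hl c hc => ?_⟩
  refine hJ0 c J ?_ φ p hp hl
  exact (Finset.single_le_sum (f := J0) (fun _ _ => Nat.zero_le _)
    (hC.mem_toFinset.2 hc)).trans hJ

/-- **R4.** no common zero on `T`, finitely many polynomials: unit content at all bad places and all
normalised points, `J` large (R3 for the coefficients and for the multipliers in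
`τ l ^ s = sum of multiples of coefficients`) -/
theorem unitM_of_noZero {K : Type} [Field K] {M : Type} [Field M] [NumberField M] [Algebra K M] {Λ : Finset ℕ} (hΛ : ∀ l ∈ Λ, 2 ≤ l)
    {R : Type} [CommRing R]
    [Algebra K R] {N : ℕ} (τ : Fin N → R) (hgen : Algebra.adjoin K (Set.range τ) = ⊤) {n : ℕ}
    (T : Finset (MvPolynomial (Fin n) R)) (hT : NoZero τ (T : Set (MvPolynomial (Fin n) R))) :
    ∃ J0 : ℕ, ∀ J, J0 ≤ J → 
      ∀ φ : R →ₐ[K] M, NrmM (K := K) (M := M) Λ J τ φ → ∀ p : Pl M, Pool.Agent.Helper65.CL.Bad Λ J p →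
      (∀ c ∈ Coefs (T : Set (MvPolynomial (Fin n) R)), vl p (φ c) ≤ 1) ∧
        ∃ c ∈ Coefs (T : Set (MvPolynomial (Fin n) R)), vl p (φ c) = 1 := by
  classical
  set U : Set R := Coefs (T : Set (MvPolynomial (Fin n) R)) with hU
  -- the set of coefficients is finite
  have hfin : U.Finite := by
    have h1 : U ⊆ insert (0 : R) (((T.biUnion fun f => f.support.image fun m => f.coeff m) :
        Finset R) : Set R) := by
      rintro c ⟨f, hf, m, rfl⟩
      by_cases h0 : f.coeff m = 0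
      · exact Or.inl h0
      · refine Or.inr ?_
        rw [Finset.mem_coe, Finset.mem_biUnion]
        exact ⟨f, hf, Finset.mem_image_of_mem _ (MvPolynomial.mem_support_iff.2 h0)⟩
    exact ((Finset.finite_toSet _).insert _).subset h1
  -- the multipliers
  have hmul : ∀ l, ∃ (s : ℕ) (r : R →₀ R), (r.support : Set R) ⊆ U ∧
      τ l ^ s = r.sum fun c a => a * c := by
    intro l
    obtain ⟨s, hs⟩ := hT l
    obtain ⟨r, hr1, hr2⟩ := (Submodule.mem_span_set (R := R) (s := U)).1 hs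
    refine ⟨s, r, hr1, ?_⟩
    rw [← hr2]
    rfl
  choose s r hr1 hr2 using hmul
  have hfin2 : (⋃ l, (fun c => r l c) '' U).Finite := Set.finite_iUnion fun l => hfin.image _
  obtain ⟨J1, hJ1⟩ := int_of_gen_finsetM (K := K) (M := M) hΛ τ hgen U hfin
  obtain ⟨J2, hJ2⟩ := int_of_gen_finsetM (K := K) (M := M) hΛ τ hgen _ hfin2
  refine ⟨max J1 J2, fun J hJ φ hφ p hp => ?_⟩
  obtain ⟨hl, l, hl1⟩ := hφ p hp
  have h1 : ∀ c ∈ U, vl p (φ c) ≤ 1 := hJ1 J (le_of_max_le_left hJ) φ p hp hl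
  have h2 := hJ2 J (le_of_max_le_right hJ) φ p hp hl
  refine ⟨h1, ?_⟩
  by_contra hcon
  push Not at hcon
  have h3 : ∀ c ∈ U, vl p (φ c) < 1 := fun c hc => lt_of_le_of_ne (h1 c hc) (hcon c hc)
  have h4 : vl p (φ (τ l ^ s l)) < 1 := by
    rw [hr2 l, Finsupp.sum, map_sum]
    refine Valuation.map_sum_lt _ one_ne_zero fun c hc => ?_
    rw [map_mul, map_mul]
    have h5 : vl p (φ (r l c)) ≤ 1 :=
      h2 _ (Set.mem_iUnion.2 ⟨l, Set.mem_image_of_mem _ (hr1 l hc)⟩)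
    exact lt_of_le_of_lt (mul_le_of_le_one_left' h5) (h3 c (hr1 l hc))
  rw [map_pow, map_pow, hl1, one_pow] at h4
  exact lt_irrefl _ h4


/-- **CONES.** `R` the homogeneous coordinate ring of `T` with dense points -/
theorem spu_coneM {K : Type} [Field K] {M : Type} [Field M] [NumberField M] [Algebra K M] {R : Type} [CommRing R] [IsDomain R]
    [Algebra K R] (L : Type) [Field L] [Algebra R L] [IsFractionRing R L] {N : ℕ} (τ : Fin N → R)
    (hgen : Algebra.adjoin K (Set.range τ) = ⊤)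
    (hcone : ∀ φ : R →ₐ[K] M, ∃ ψ : R →ₐ[K] Polynomial M, ∀ l,
      ψ (τ l) = Polynomial.X * Polynomial.C (φ (τ l)))
    (hdense : ∀ f : R, f ≠ 0 → ∃ φ : R →ₐ[K] M, φ f ≠ 0) (hτ : ∃ l, τ l ≠ 0)
    {n : ℕ} {r : Type} [Fintype r] (a : r → MvPolynomial (Fin n) R)
    (hNa : ∀ q, NoZero τ ({a q} : Set (MvPolynomial (Fin n) R)))
    (hP : ∀ q, ∀ P : MvPolynomial (Fin n) L, Irreducible P → P ∣ map (algebraMap R L) (a q) →
      TriDeg 3 P) : SPU K M a := by
  classical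
  intro Λ hΛ G
  have hΛ2 : ∀ l ∈ Λ, 2 ≤ l := fun l hl => (hΛ l hl).two_le
  let Φ : ℕ → (R →+* M) → Prop := fun J φ => ∃ ψ : R →ₐ[K] M, (ψ : R →+* M) = φ ∧ NrmM Λ J τ ψ
  obtain ⟨J0, -, hJ0⟩ := harmless_core (K := M) hΛ2 L (dm := 3)
    (Pool.Agent.Helper65.CL.stepD_of_sieve M hΛ2 (Pool.Agent.Helper65.CL.sieveG_three _ hΛ M))
    Φ (by
      filter_upwards [ev_of (exists_nrmM (K := K) hΛ2 (exists_scaleL M hΛ2 N) τ hgen hcone hdense hτ)]
        with J hJ f hf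
      obtain ⟨φ, h1, h2⟩ := hJ f hf
      exact ⟨(φ : R →+* M), ⟨φ, rfl, h1⟩, h2⟩) a
    (fun q => NoZero.ne_zero (hNa q) hτ)
    (fun q => by
      filter_upwards [ev_of (unitM_of_noZero (K := K) (M := M) hΛ2 τ hgen
        ({a q} : Finset (MvPolynomial (Fin n) R)) (by rw [Finset.coe_singleton]; exact hNa q))]
        with J hJ
      rintro _ ⟨ψ, rfl, hψ⟩ p hp
      obtain ⟨h1, c, ⟨f, hf, m, rfl⟩, hc⟩ := hJ ψ hψ p hp
      rw [Finset.coe_singleton, Set.mem_singleton_iff] at hf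
      subst hf
      exact ⟨fun m => h1 _ ⟨a q, by rw [Finset.coe_singleton]; rfl, m, rfl⟩, m, hc⟩)
    hP G
    (fun g hg m => by
      filter_upwards [ev_of (int_of_genM (K := K) (M := M) hΛ2 τ hgen (coeff m g))] with J hJ
      rintro _ ⟨ψ, rfl, hψ⟩ p hp
      exact hJ ψ p hp (hψ p hp).1) 0
  refine ⟨J0, fun J hJ f hf => ?_⟩
  obtain ⟨_, t, ⟨ψ, rfl, -⟩, h2, h3, h4⟩ := hJ0 f hf
  have hval : ∀ f : MvPolynomial (Fin n) R,
      aevalTower ψ t f = eval t (map (ψ : R →+* M) f) := by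
    intro f
    induction f using MvPolynomial.induction_on with
    | C a => rw [aevalTower_C, map_C, eval_C]; rfl
    | add f g hf hg => rw [map_add, map_add, map_add, hf, hg]
    | mul_X f i hf => rw [map_mul, map_mul, map_mul, hf, aevalTower_X, map_X, eval_X]
  refine ⟨aevalTower ψ t, by rw [hval]; exact h2, fun q => ⟨by rw [hval]; exact (h3 q).1,
    fun p hp => by rw [hval]; exact (h3 q).2 p (bad_mono hJ hp)⟩, fun p hp g hg => ?_⟩
  rw [hval]
  exact (h4 p (bad_mono hJ hp)).2 g hg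

end Pool.Agent.Helper83.BR
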