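import Pool.Agent.Helper83.BR.Close
import Pool.Agent.Helper83.RelL.Harm
import Pool.Agent.Helper83.Rel.Final

/-!
# BR: bases with the sieve property: the point, localisations of affine space, cones
-/

set_option autoImplicit false

namespace Pool.Agent.Helper83.BR

open NumberField Pool.Agent.Helper4.CB MvPolynomial
open Pool.Agent.Helper69.CB Filter Pool.Agent.Helper83.Rel Pool.Agent.Helper83.RelL

/-- the point -/
theorem spm_self (K : Type) [Field K] (M : Type) [Field M] [NumberField M] [Algebra K M] :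
    SPM K M K := by
  classical
  intro Λ hΛ G
  obtain ⟨J0, hJ0⟩ := Pool.Agent.Helper56.CL.start M (fun l hl => (hΛ l hl).two_le)
    (G.image (algebraMap K M)) 0
  refine ⟨J0, fun J hJ f hf => ⟨Algebra.ofId K M, ?_, fun p hp g hg => ?_⟩⟩
  · exact fun h0 => hf ((map_eq_zero_iff _ (algebraMap K M).injective).1 h0)
  · by_cases hg0 : algebraMap K M g = 0
    · show vl p (algebraMap K M g) ≤ 1
      rw [hg0, map_zero]
      exact zero_le_one
    · exact ((hJ0 J hJ p hp).2 _ (Finset.mem_image_of_mem _ hg) hg0).le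

/-- a ring which embeds in a ring with the sieve property over a larger field -/
theorem spm_comap {K : Type} [Field K] {M : Type} [Field M] [NumberField M] [Algebra K M]
    {S S' : Type} [CommRing S] [Algebra K S] [CommRing S'] [Algebra M S'] [Algebra K S']
    [IsScalarTower K M S'] (j : S →ₐ[K] S') (hj : Function.Injective j) (h : SPM M M S') :
    SPM K M S := by
  classical
  intro Λ hΛ G
  obtain ⟨J0, hJ0⟩ := h Λ hΛ (G.image j)
  refine ⟨J0, fun J hJ f hf => ?_⟩
  obtain ⟨φ, h1, h2⟩ := hJ0 J hJ (j f) (by rwa [Ne, map_eq_zero_iff _ hj])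
  exact ⟨(φ.restrictScalars K).comp j, h1, fun p hp g hg => h2 p hp _
    (Finset.mem_image_of_mem j hg)⟩

/-- polynomials over a field: nonzero is enough for the coefficients -/
theorem span_coeff_field {k : Type} [Field k] {n : ℕ} {P : MvPolynomial (Fin n) k} (hP : P ≠ 0) :
    Ideal.span (Set.range fun m => coeff m P) = ⊤ := by
  obtain ⟨m, hm⟩ := ne_zero_iff.1 hP
  exact Ideal.eq_top_of_isUnit_mem _ (Ideal.subset_span ⟨m, rfl⟩) (isUnit_iff_ne_zero.2 hm)

/-- localised affine space -/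
theorem spu_affine {K : Type} [Field K] [NumberField K] {n : ℕ} {r : Type} [Fintype r]
    (a : r → MvPolynomial (Fin n) K) (ha : ∀ q, a q ≠ 0)
    (hP : ∀ q, ∀ P : MvPolynomial (Fin n) K, Irreducible P → P ∣ a q → TriDeg 3 P) :
    SPU K K a :=
  spu_mv (spm_self K K) K a (fun q => span_coeff_field (ha q)) (fun q P hPi hd => hP q P hPi (by
    rwa [Algebra.algebraMap_self, MvPolynomial.map_id] at hd))

/-- **CONES.** `R` the homogeneous coordinate ring of `T` with dense points -/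
theorem spu_cone {K : Type} [Field K] [NumberField K] {R : Type} [CommRing R] [IsDomain R]
    [Algebra K R] (L : Type) [Field L] [Algebra R L] [IsFractionRing R L] {N : ℕ} (τ : Fin N → R)
    (hgen : Algebra.adjoin K (Set.range τ) = ⊤)
    (hcone : ∀ φ : R →ₐ[K] K, ∃ ψ : R →ₐ[K] Polynomial K, ∀ l,
      ψ (τ l) = Polynomial.X * Polynomial.C (φ (τ l)))
    (hdense : ∀ f : R, f ≠ 0 → ∃ φ : R →ₐ[K] K, φ f ≠ 0) (hτ : ∃ l, τ l ≠ 0)
    {n : ℕ} {r : Type} [Fintype r] (a : r → MvPolynomial (Fin n) R)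
    (hNa : ∀ q, NoZero τ ({a q} : Set (MvPolynomial (Fin n) R)))
    (hP : ∀ q, ∀ P : MvPolynomial (Fin n) L, Irreducible P → P ∣ map (algebraMap R L) (a q) →
      TriDeg 3 P) : SPU K K a := by
  classical
  intro Λ hΛ G
  have hΛ2 : ∀ l ∈ Λ, 2 ≤ l := fun l hl => (hΛ l hl).two_le
  let Φ : ℕ → (R →+* K) → Prop := fun J φ => ∃ ψ : R →ₐ[K] K, (ψ : R →+* K) = φ ∧ NrmL Λ J τ ψ
  obtain ⟨J0, -, hJ0⟩ := harmless_core (K := K) hΛ2 L (dm := 3)
    (Pool.Agent.Helper65.CL.stepD_of_sieve K hΛ2 (Pool.Agent.Helper65.CL.sieveG_three _ hΛ K))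
    Φ (by
      filter_upwards [ev_of (exists_nrmL hΛ2 (exists_scaleL K hΛ2 N) τ hgen hcone hdense hτ)]
        with J hJ f hf
      obtain ⟨φ, h1, h2⟩ := hJ f hf
      exact ⟨(φ : R →+* K), ⟨φ, rfl, h1⟩, h2⟩) a
    (fun q => NoZero.ne_zero (hNa q) hτ)
    (fun q => by
      filter_upwards [ev_of (unitL_of_noZero (K := K) hΛ2 τ hgen
        ({a q} : Finset (MvPolynomial (Fin n) R)) (by rw [Finset.coe_singleton]; exact hNa q))]
        with J hJ
      rintro _ ⟨ψ, rfl, hψ⟩ p hp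
      obtain ⟨h1, c, ⟨f, hf, m, rfl⟩, hc⟩ := hJ ψ hψ p hp
      rw [Finset.coe_singleton, Set.mem_singleton_iff] at hf
      subst hf
      exact ⟨fun m => h1 _ ⟨a q, by rw [Finset.coe_singleton]; rfl, m, rfl⟩, m, hc⟩)
    hP G
    (fun g hg m => by
      filter_upwards [ev_of (int_of_genL hΛ2 τ hgen (coeff m g))] with J hJ
      rintro _ ⟨ψ, rfl, hψ⟩ p hp
      exact hJ ψ p hp (hψ p hp).1) 0
  refine ⟨J0, fun J hJ f hf => ?_⟩
  obtain ⟨_, t, ⟨ψ, rfl, -⟩, h2, h3, h4⟩ := hJ0 f hf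
  have hval : ∀ f : MvPolynomial (Fin n) R,
      aevalTower ψ t f = eval t (map (ψ : R →+* K) f) := aevalTower_eq_eval ψ t
  refine ⟨aevalTower ψ t, by rw [hval]; exact h2, fun q => ⟨by rw [hval]; exact (h3 q).1,
    fun p hp => by rw [hval]; exact (h3 q).2 p (bad_mono hJ hp)⟩, fun p hp g hg => ?_⟩
  rw [hval]
  exact (h4 p (bad_mono hJ hp)).2 g hg

end Pool.Agent.Helper83.BR
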