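import Pool.Agent.Helper83.BR.Core
import Pool.Agent.Helper65.CL.Claim3

/-!
# BR: the sieve property passes to `R[x_1, .., x_n]` localised at polynomials of degree at most
three in their first variable whose coefficients generate the unit ideal
-/

set_option autoImplicit false

namespace Pool.Agent.Helper83.BR

open NumberField Pool.Agent.Helper4.CB MvPolynomial
open Pool.Agent.Helper69.CB Filter Pool.Agent.Helper83.Rel

/-- many points at which the `a q` are units and finitely many given elements are integral at all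
bad places -/
def SPU (K : Type) [Field K] (M : Type) [Field M] [NumberField M] [Algebra K M]
    {A : Type} [CommRing A] [Algebra K A] {r : Type} (a : r → A) : Prop :=
  ∀ Λ : Finset ℕ, (∀ l ∈ Λ, l.Prime) → ∀ G : Finset A, ∃ J0 : ℕ, ∀ J, J0 ≤ J →
    ∀ f : A, f ≠ 0 → ∃ φ : A →ₐ[K] M, φ f ≠ 0 ∧
      (∀ q, φ (a q) ≠ 0 ∧ ∀ p : Pl M, Pool.Agent.Helper65.CL.Bad Λ J p → vl p (φ (a q)) = 1) ∧
      ∀ p : Pl M, Pool.Agent.Helper65.CL.Bad Λ J p → ∀ g ∈ G, vl p (φ g) ≤ 1

/-- fewer bad places for larger `J` -/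
theorem bad_mono {K : Type} [Field K] [NumberField K] {Λ : Finset ℕ} {J J' : ℕ} (h : J ≤ J')
    {p : Pl K} (hp : Pool.Agent.Helper65.CL.Bad Λ J' p) : Pool.Agent.Helper65.CL.Bad Λ J p := by
  obtain ⟨l, hl, h1⟩ := hp
  exact ⟨l, hl, h1.of_dvd (pow_dvd_pow l h)⟩

/-- localisation -/
theorem spm_of_spu {K : Type} [Field K] {M : Type} [Field M] [NumberField M] [Algebra K M]
    {A : Type} [CommRing A] [Algebra K A] {r : Type} [Fintype r] {a : r → A}
    (h : SPU K M a) (S : Type) [CommRing S] [Algebra K S] [Algebra A S] [IsScalarTower K A S]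
    [IsLocalization.Away (∏ q, a q) S] : SPM K M S := by
  classical
  intro Λ hΛ G
  choose x hx using fun g : S => IsLocalization.Away.surj (∏ q, a q) g
  choose y hy using hx
  obtain ⟨J0, hJ0⟩ := h Λ hΛ (G.image y)
  refine ⟨J0, fun J hJ f hf => ?_⟩
  have hu : IsUnit (algebraMap A S (∏ q, a q)) := IsLocalization.Away.algebraMap_isUnit _
  have hy0 : y f ≠ 0 := by
    intro h0
    have h1 := hy f
    rw [h0, map_zero] at h1
    exact hf ((hu.pow _).mul_left_eq_zero.1 h1)
  obtain ⟨φ, h1, h2, h3⟩ := hJ0 J hJ (y f) hy0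
  have hφu : IsUnit (φ (∏ q, a q)) := by
    rw [map_prod, isUnit_iff_ne_zero]
    exact Finset.prod_ne_zero_iff.2 fun q _ => (h2 q).1
  let ψ : S →ₐ[K] M := IsLocalization.liftAlgHom (M := Submonoid.powers (∏ q, a q)) (f := φ)
    (by
      rintro ⟨_, k, rfl⟩
      rw [map_pow]
      exact hφu.pow k)
  have hψ : ∀ z : A, ψ (algebraMap A S z) = φ z := fun z => by
    simp only [ψ, IsLocalization.coe_liftAlgHom]
    exact IsLocalization.lift_eq _ z
  have hψ2 : ∀ g : S, ψ g * φ (∏ q, a q) ^ x g = φ (y g) := fun g => by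
    have h4 := congrArg ψ (hy g)
    rwa [map_mul, map_pow, hψ, hψ] at h4
  refine ⟨ψ, ?_, fun p hp g hg => ?_⟩
  · intro h0
    have h4 := hψ2 f
    rw [h0, zero_mul] at h4
    exact h1 h4.symm
  · have h4 := congrArg (vl p) (hψ2 g)
    rw [map_mul, map_pow, map_prod, map_prod, Finset.prod_congr rfl fun q _ => (h2 q).2 p hp,
      Finset.prod_const_one, one_pow, mul_one] at h4
    rw [h4]
    exact h3 p hp _ (Finset.mem_image_of_mem y hg)

/-- a point with integral coefficients whose coefficients generate the unit ideal has unit content -/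
theorem unit_content {K : Type} [Field K] [NumberField K] {R : Type} [CommRing R]
    {φ : R →+* K} {p : Pl K} {S : Finset R} {b : R → R} (h1 : ∑ c ∈ S, b c • c = 1)
    (hb : ∀ c ∈ S, vl p (φ (b c)) ≤ 1) (hc : ∀ c ∈ S, vl p (φ c) ≤ 1) :
    ∃ c ∈ S, vl p (φ c) = 1 := by
  by_contra hcon
  push Not at hcon
  have h2 : vl p (φ (∑ c ∈ S, b c • c)) < 1 := by
    rw [map_sum]
    refine Valuation.map_sum_lt _ one_ne_zero fun c hcS => ?_
    rw [smul_eq_mul, map_mul, map_mul]
    exact mul_lt_one_of_nonneg_of_lt_one_right (hb c hcS) zero_le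
      (lt_of_le_of_ne (hc c hcS) (hcon c hcS))
  rw [h1, map_one, map_one] at h2
  exact lt_irrefl _ h2

/-- **CLOSURE** -/
theorem spu_mv {K : Type} [Field K] {M : Type} [Field M] [NumberField M] [Algebra K M]
    {R : Type} [CommRing R] [IsDomain R] [Algebra K R] (hR : SPM K M R)
    (L : Type) [Field L] [Algebra R L] [IsFractionRing R L]
    {n : ℕ} {r : Type} [Fintype r] (a : r → MvPolynomial (Fin n) R)
    (hun : ∀ q, Ideal.span (Set.range fun m => coeff m (a q)) = ⊤)
    (hP : ∀ q, ∀ P : MvPolynomial (Fin n) L, Irreducible P → P ∣ map (algebraMap R L) (a q) →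
      TriDeg 3 P) : SPU K M a := by
  classical
  intro Λ hΛ G
  have hΛ2 : ∀ l ∈ Λ, 2 ≤ l := fun l hl => (hΛ l hl).two_le
  have ha0 : ∀ q, a q ≠ 0 := by
    intro q h0
    have h1 := hun q
    rw [h0] at h1
    have h2 : (Set.range fun m : Fin n →₀ ℕ => coeff m (0 : MvPolynomial (Fin n) R)) ⊆ {0} := by
      rintro _ ⟨m, rfl⟩
      exact coeff_zero m
    have h3 : Ideal.span (Set.range fun m : Fin n →₀ ℕ => coeff m (0 : MvPolynomial (Fin n) R)) ≤
        ⊥ := by
      rw [← Ideal.span_singleton_zero]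
      exact Ideal.span_mono h2
    rw [h1, top_le_iff] at h3
    exact bot_ne_top h3
  -- the coefficients and the relations
  let S : r → Finset R := fun q => (a q).support.image fun m => coeff m (a q)
  have hS : ∀ q, ∃ b : R → R, ∑ c ∈ S q, b c • c = 1 := by
    intro q
    have h1 : (1 : R) ∈ Ideal.span ((S q : Finset R) : Set R) := by
      have h2 : Ideal.span (Set.range fun m => coeff m (a q)) ≤
          Ideal.span ((S q : Finset R) : Set R) := by
        rw [Ideal.span_le]
        rintro _ ⟨m, rfl⟩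
        by_cases hm : m ∈ (a q).support
        · exact Ideal.subset_span (Finset.mem_coe.2
            (Finset.mem_image_of_mem (fun m => coeff m (a q)) hm))
        · show coeff m (a q) ∈ _
          rw [notMem_support_iff.1 hm]
          exact Ideal.zero_mem _
      rw [hun q] at h2
      exact h2 trivial
    obtain ⟨b, -, hb⟩ := Submodule.mem_span_finset.1 h1
    exact ⟨b, hb⟩
  choose b hb using hS
  let G0 : Finset R := (Finset.univ.biUnion fun q => S q ∪ (S q).image (b q)) ∪
    G.biUnion fun g => g.support.image fun m => coeff m g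
  obtain ⟨J2, hJ2⟩ := hR Λ hΛ G0
  let Φ : ℕ → (R →+* M) → Prop := fun J φ =>
    (∀ k : K, φ (algebraMap K R k) = algebraMap K M k) ∧
    ∀ p : Pl M, Pool.Agent.Helper65.CL.Bad Λ J p → ∀ g ∈ G0, vl p (φ g) ≤ 1
  obtain ⟨J0, -, hJ0⟩ := harmless_core (K := M) hΛ2 L (dm := 3)
    (Pool.Agent.Helper65.CL.stepD_of_sieve M hΛ2 (Pool.Agent.Helper65.CL.sieveG_three _ hΛ M))
    Φ (eventually_atTop.2 ⟨J2, fun J hJ f hf => by
      obtain ⟨φ, h1, h2⟩ := hJ2 J hJ f hf
      exact ⟨(φ : R →+* M), ⟨fun k => φ.commutes k, h2⟩, h1⟩⟩) a ha0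
    (fun q => Eventually.of_forall fun J φ hφ p hp => by
      have hS0 : ∀ c ∈ S q, vl p (φ c) ≤ 1 := fun c hc => hφ.2 p hp c
        (Finset.mem_union_left _ (Finset.mem_biUnion.2 ⟨q, Finset.mem_univ q,
          Finset.mem_union_left _ hc⟩))
      constructor
      · intro m
        by_cases hm : m ∈ (a q).support
        · exact hS0 _ (Finset.mem_image_of_mem (fun m => coeff m (a q)) hm)
        · rw [notMem_support_iff.1 hm, map_zero, map_zero]
          exact zero_le_one
      · obtain ⟨c, hc, h1⟩ := unit_content (hb q) (fun c hc => hφ.2 p hp _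
          (Finset.mem_union_left _ (Finset.mem_biUnion.2 ⟨q, Finset.mem_univ q,
            Finset.mem_union_right _ (Finset.mem_image_of_mem (b q) hc)⟩))) hS0
        obtain ⟨m, _, rfl⟩ := Finset.mem_image.1 hc
        exact ⟨m, h1⟩)
    hP G
    (fun g hg m => Eventually.of_forall fun J φ hφ p hp => by
      by_cases hm : m ∈ g.support
      · exact hφ.2 p hp _ (Finset.mem_union_right _ (Finset.mem_biUnion.2 ⟨g, hg,
          Finset.mem_image_of_mem (fun m => coeff m g) hm⟩))
      · rw [notMem_support_iff.1 hm, map_zero, map_zero]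
        exact zero_le_one) 0
  refine ⟨J0, fun J hJ f hf => ?_⟩
  obtain ⟨φ, t, h1, h2, h3, h4⟩ := hJ0 f hf
  let φA : R →ₐ[K] M := { φ with commutes' := h1.1 }
  have hval : ∀ f : MvPolynomial (Fin n) R, aevalTower φA t f = eval t (map φ f) := by
    intro f
    induction f using MvPolynomial.induction_on with
    | C a => rw [aevalTower_C, map_C, eval_C]; rfl
    | add f g hf hg => rw [map_add, map_add, map_add, hf, hg]
    | mul_X f i hf => rw [map_mul, map_mul, map_mul, hf, aevalTower_X, map_X, eval_X]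
  refine ⟨aevalTower φA t, by rw [hval]; exact h2, fun q => ⟨by rw [hval]; exact (h3 q).1,
    fun p hp => by rw [hval]; exact (h3 q).2 p (bad_mono hJ hp)⟩, fun p hp g hg => ?_⟩
  rw [hval]
  exact (h4 p (bad_mono hJ hp)).2 g hg

end Pool.Agent.Helper83.BR
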