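import Pool.Agent.Helper83.Rel.Spec

/-!
# BR: specialisation along ring homomorphisms to a field
-/

set_option autoImplicit false

namespace Pool.Agent.Helper83.BR

open NumberField Pool.Agent.Helper4.CB Pool.Agent.Helper69.CB Pool.Agent.Helper49.CB MvPolynomial
open Pool.Agent.Helper83.Rel

/-- **S1.** coprime tuples over the fraction field specialise to coprime tuples outside a divisor -/
theorem cop_specR {K : Type} [Field K] {R : Type} [CommRing R] [IsDomain R]
    (L : Type) [Field L] [Algebra R L] [IsFractionRing R L] (n : ℕ) :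
    ∀ (T : Finset (MvPolynomial (Fin n) R)),
      (∀ q : MvPolynomial (Fin n) L, Irreducible q → ∃ f ∈ T, ¬ q ∣ map (algebraMap R L) f) →
      ∃ H : R, H ≠ 0 ∧ ∀ φ : R →+* K, φ H ≠ 0 → ∀ q : MvPolynomial (Fin n) K, Irreducible q →
        ∃ f ∈ T, ¬ q ∣ map φ f := by
  classical
  have halg : Function.Injective (algebraMap R L) := IsFractionRing.injective R L
  induction n with
  | zero =>
    intro T _
    exact ⟨1, one_ne_zero, fun φ _ q hq => absurd hq (not_irreducible_fin0 q)⟩
  | succ n ih =>
    intro T hT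
    set e := finSuccEquiv R n with he
    let T1 : Finset (Polynomial (MvPolynomial (Fin n) R)) := T.image e
    have hcop : Cop (T1.image (Polynomial.map (map (algebraMap R L)))) := by
      intro q hq
      have h1 : Irreducible ((finSuccEquiv L n).symm q) :=
        (MulEquiv.irreducible_iff (finSuccEquiv L n).symm).2 hq
      obtain ⟨f, hf, hfq⟩ := hT _ h1
      refine ⟨_, Finset.mem_image_of_mem _ (Finset.mem_image_of_mem _ hf), fun hd => hfq ?_⟩
      rw [he, ← finSucc_map' (algebraMap R L)] at hd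
      have h2 := map_dvd (finSuccEquiv L n).symm hd
      rwa [AlgEquiv.symm_apply_apply] at h2
    obtain ⟨h, ρ, hρ0, hρ⟩ := rel_bezout (L := L) T1 hcop
    -- the coefficients
    obtain ⟨H1, hH1, hφ1⟩ := ih (T1.biUnion Polynomial.coeffs) (by
      intro q hq
      obtain ⟨f, hf, c, hc, hcq⟩ := cop_coeffs' hcop q hq
      obtain ⟨g, hg, rfl⟩ := Finset.mem_image.1 hf
      rw [Polynomial.mem_coeffs_iff] at hc
      obtain ⟨i, hi, rfl⟩ := hc
      rw [Polynomial.mem_support_iff, Polynomial.coeff_map] at hi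
      refine ⟨g.coeff i, Finset.mem_biUnion.2 ⟨g, hg, Polynomial.coeff_mem_coeffs ?_⟩, ?_⟩
      · intro h0
        rw [h0, map_zero] at hi
        exact hi rfl
      · rwa [Polynomial.coeff_map] at hcq)
    obtain ⟨m, hm⟩ := ne_zero_iff.1 hρ0
    refine ⟨H1 * coeff m ρ, mul_ne_zero hH1 hm, fun φ hφ q hq => ?_⟩
    rw [map_mul] at hφ
    have hφ2 := hφ1 φ (left_ne_zero_of_mul hφ)
    have hρφ : map φ ρ ≠ 0 := by
      rw [ne_zero_iff]
      exact ⟨m, by rw [coeff_map]; exact right_ne_zero_of_mul hφ⟩
    by_contra hcon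
    push Not at hcon
    set Q := finSuccEquiv K n q with hQ
    have hQirr : Irreducible Q := (MulEquiv.irreducible_iff (finSuccEquiv K n)).2 hq
    have hdvd : ∀ f ∈ T, Q ∣ (e f).map (map φ) := by
      intro f hf
      rw [he, ← finSucc_map']
      exact map_dvd (finSuccEquiv K n) (hcon f hf)
    have hQρ : Q ∣ Polynomial.C (map φ ρ) := by
      have h2 := congrArg (Polynomial.map (map φ)) hρ
      rw [Polynomial.map_C, Polynomial.map_sum] at h2
      rw [← h2]
      refine Finset.dvd_sum fun g hg => ?_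
      obtain ⟨f, hf, rfl⟩ := Finset.mem_image.1 hg
      rw [Polynomial.map_mul]
      exact (hdvd f hf).mul_left _
    have hQ0 : Q.natDegree = 0 := by
      have h3 := Polynomial.natDegree_le_of_dvd hQρ (by rwa [Ne, Polynomial.C_eq_zero])
      rw [Polynomial.natDegree_C] at h3
      omega
    obtain ⟨c0, hc0⟩ : ∃ c0, Q = Polynomial.C c0 := ⟨_, Polynomial.eq_C_of_natDegree_eq_zero hQ0⟩
    rw [hc0] at hQirr hdvd
    obtain ⟨c, hc, hcq⟩ := hφ2 c0 (irreducible_of_C hQirr)
    obtain ⟨g, hg, hc⟩ := Finset.mem_biUnion.1 hc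
    obtain ⟨f, hf, rfl⟩ := Finset.mem_image.1 hg
    rw [Polynomial.mem_coeffs_iff] at hc
    obtain ⟨i, _, rfl⟩ := hc
    apply hcq
    have h4 := (Polynomial.C_dvd_iff_dvd_coeff _ _).1 (hdvd f hf) i
    rwa [Polynomial.coeff_map] at h4

/-- **S2.** type F specialises -/
theorem tf_specR {K : Type} [Field K] {R : Type} [CommRing R] [IsDomain R]
    (L : Type) [Field L] [Algebra R L] [IsFractionRing R L] {dm : ℕ} (n : ℕ) :
    ∀ P : MvPolynomial (Fin n) R, TF dm n (map (algebraMap R L) P) →
      ∃ H : R, H ≠ 0 ∧ ∀ φ : R →+* K, φ H ≠ 0 → TF dm n (map φ P) := by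
  have halg : Function.Injective (algebraMap R L) := IsFractionRing.injective R L
  induction n with
  | zero => exact fun P hP => absurd hP (by simp [TF])
  | succ n ih =>
    intro P hP
    set e := finSuccEquiv R n with he
    have hd : ((e P).map (map (algebraMap R L))).natDegree = (e P).natDegree :=
      Polynomial.natDegree_map_eq_of_injective (map_injective _ halg) _
    rcases hP with ⟨h1, h2⟩ | ⟨h1, h2⟩
    · rw [finSucc_map'] at h1 h2
      obtain ⟨H, hH, hφ⟩ := cop_specR (K := K) L n (e P).coeffs (by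
        intro q hq
        obtain ⟨c, hc, hcq⟩ := h2 q hq
        rw [Polynomial.mem_coeffs_iff] at hc
        obtain ⟨i, hi, rfl⟩ := hc
        rw [Polynomial.mem_support_iff, Polynomial.coeff_map] at hi
        refine ⟨(e P).coeff i, Polynomial.coeff_mem_coeffs ?_, ?_⟩
        · intro h0
          rw [he] at h0
          rw [h0, map_zero] at hi
          exact hi rfl
        · rwa [Polynomial.coeff_map] at hcq)
      refine ⟨H, hH, fun φ hφH => Or.inl ⟨?_, fun q hq => ?_⟩⟩
      · rw [finSucc_map']
        exact Polynomial.natDegree_map_le.trans (hd ▸ h1)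
      · obtain ⟨c, hc, hcq⟩ := hφ φ hφH q hq
        rw [Polynomial.mem_coeffs_iff] at hc
        obtain ⟨i, hi, rfl⟩ := hc
        refine ⟨map φ ((e P).coeff i), ?_, hcq⟩
        rw [finSucc_map', ← Polynomial.coeff_map]
        apply Polynomial.coeff_mem_coeffs
        intro h0
        rw [Polynomial.coeff_map] at h0
        rw [h0] at hcq
        exact hcq (dvd_zero q)
    · rw [finSucc_map'] at h1 h2
      rw [Polynomial.coeff_map] at h2
      obtain ⟨H, hH, hφ⟩ := ih _ h2
      refine ⟨H, hH, fun φ hφH => Or.inr ⟨?_, ?_⟩⟩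
      · rw [finSucc_map']
        have h3 : (e P).natDegree = 0 := by rw [← hd]; exact h1
        have h4 : ((e P).map (map φ)).natDegree ≤ (e P).natDegree :=
          Polynomial.natDegree_map_le
        exact Nat.le_zero.1 (h3 ▸ h4)
      · rw [finSucc_map', Polynomial.coeff_map]
        exact hφ φ hφH

end Pool.Agent.Helper83.BR
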