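import Pool.Agent.Helper83.BR.Defs
import Pool.Agent.Helper83.BR.SpecR
import Pool.Agent.Helper83.RelL.Ind
import Pool.Agent.Helper83.RelL.Leaf
import Pool.Agent.Helper83.Rel.Harm2

/-!
# BR: harmless points over a general base with a family of points with values in a number field,
integral values of finitely many given elements
-/

set_option autoImplicit false

namespace Pool.Agent.Helper83.BR

open NumberField Pool.Agent.Helper4.CB MvPolynomial Pool.Agent.Helper65.CB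
open Pool.Agent.Helper69.CB Pool.Agent.Helper49.CB Filter Pool.Agent.Helper83.Rel
open Pool.Agent.Helper83.RelL

/-- evaluation of a polynomial with integral coefficients at an integral point -/
theorem vl_eval_le_one {K : Type} [Field K] [NumberField K] {p : Pl K} {n : ℕ}
    {f : MvPolynomial (Fin n) K} (hf : ∀ m, vl p (coeff m f) ≤ 1) {t : Fin n → K}
    (ht : ∀ j, vl p (t j) ≤ 1) : vl p (eval t f) ≤ 1 := by
  rw [eval_eq]
  refine (Valuation.map_sum_le _ (fun m _ => ?_))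
  rw [map_mul, map_prod]
  refine mul_le_one' (hf m) (Finset.prod_le_one' fun j _ => ?_)
  rw [map_pow]
  exact pow_le_one' (ht j) _

/-- **the core** -/
theorem harmless_core {K : Type} [Field K] [NumberField K] {Λ : Finset ℕ} (hΛ : ∀ l ∈ Λ, 2 ≤ l)
    {R : Type} [CommRing R] [IsDomain R] (L : Type) [Field L] [Algebra R L] [IsFractionRing R L] {dm : ℕ}
    (hE : ∀ A Dg J0 : ℕ, ∃ J, J0 ≤ J ∧ Pool.Agent.Helper65.CL.StepD K Λ J dm A Dg)
    (Φ : ℕ → (R →+* K) → Prop)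
    (hnr : ∀ᶠ J in atTop, ∀ f : R, f ≠ 0 → ∃ φ : R →+* K, Φ J φ ∧ φ f ≠ 0)
    {n : ℕ} {r : Type} [Fintype r] (a : r → MvPolynomial (Fin n) R)
    (ha0 : ∀ q, a q ≠ 0)
    (hUa' : ∀ q, ∀ᶠ J in atTop, ∀ φ, Φ J φ → ∀ p : Pl K, Pool.Agent.Helper65.CL.Bad Λ J p →
      (∀ m, vl p (φ (coeff m (a q))) ≤ 1) ∧ ∃ m, vl p (φ (coeff m (a q))) = 1)
    (hP : ∀ q, ∀ P : MvPolynomial (Fin n) L, Irreducible P → P ∣ map (algebraMap R L) (a q) →
      TriDeg dm P) (G : Finset (MvPolynomial (Fin n) R))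
    (hG : ∀ g ∈ G, ∀ m, ∀ᶠ J in atTop, ∀ φ, Φ J φ → ∀ p : Pl K,
      Pool.Agent.Helper65.CL.Bad Λ J p → vl p (φ (coeff m g)) ≤ 1) (J1 : ℕ) :
    ∃ J, J1 ≤ J ∧ ∀ f : MvPolynomial (Fin n) R, f ≠ 0 → 
      ∃ (φ : R →+* K) (t : Fin n → K), Φ J φ ∧ eval t (map φ f) ≠ 0 ∧
      (∀ q, eval t (map φ (a q)) ≠ 0 ∧
        ∀ p : Pl K, Pool.Agent.Helper65.CL.Bad Λ J p → vl p (eval t (map φ (a q))) = 1) ∧
      ∀ p : Pl K, Pool.Agent.Helper65.CL.Bad Λ J p → (∀ j, vl p (t j) ≤ 1) ∧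
        ∀ g ∈ G, vl p (eval t (map φ g)) ≤ 1 := by
  classical
  have halg : Function.Injective (algebraMap R L) := IsFractionRing.injective R L
  have hinj : Function.Injective (map (σ := Fin n) (algebraMap R L)) := map_injective _ halg
  -- the factors over `L` and their representatives over `R`
  choose d Q hd hQ using fun g : MvPolynomial (Fin n) L => clearMv (R := R) g
  let M : r → Multiset (MvPolynomial (Fin n) L) := fun q =>
    UniqueFactorizationMonoid.factors (map (algebraMap R L) (a q))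
  choose x y hx hy hxy using fun q => fact_clear L Q d hd hQ (a q) (ha0 q)
  let FF : Finset (MvPolynomial (Fin n) L) := Finset.univ.biUnion fun q => (M q).toFinset
  have hM : ∀ q, ∀ g ∈ M q, g ∈ FF := fun q g hg =>
    Finset.mem_biUnion.2 ⟨q, Finset.mem_univ q, Multiset.mem_toFinset.2 hg⟩
  have hFF : ∀ g ∈ FF, Irreducible g ∧ TriDeg dm g := by
    intro g hg
    obtain ⟨q, -, hg⟩ := Finset.mem_biUnion.1 hg
    rw [Multiset.mem_toFinset] at hg
    have h1 := UniqueFactorizationMonoid.irreducible_of_factor g hg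
    exact ⟨h1, hP q g h1 (UniqueFactorizationMonoid.dvd_of_mem_factors hg)⟩
  have hQ0 : ∀ g ∈ FF, Q g ≠ 0 := by
    intro g hg h0
    have h1 := hQ g
    rw [h0, map_zero] at h1
    rcases mul_eq_zero.1 h1.symm with h2 | h2
    · rw [C_eq_zero, FaithfulSMul.algebraMap_eq_zero_iff] at h2
      exact hd g h2
    · exact (hFF g hg).1.ne_zero h2
  -- specialisation
  have hTF : ∀ g ∈ FF, ∃ H : R, H ≠ 0 ∧ ∀ φ : R →+* K, φ H ≠ 0 →
      TF dm n (map φ (Q g)) := by
    intro g hg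
    refine tf_specR L n (Q g) ?_
    rw [hQ]
    refine TF.smul ?_ n g (tf_of_irreducible n g (hFF g hg).1 (hFF g hg).2)
    rw [Ne, FaithfulSMul.algebraMap_eq_zero_iff]
    exact hd g
  choose H hH hHφ using hTF
  have hcoef : ∀ f : MvPolynomial (Fin n) R, f ≠ 0 → ∃ m, coeff m f ≠ 0 := fun f hf =>
    ne_zero_iff.1 hf
  let H0 : R := (∏ g ∈ FF.attach, (H g.1 g.2 * coeff (hcoef _ (hQ0 g.1 g.2)).choose (Q g.1))) *
    ∏ q, (x q * y q)
  have hH0 : H0 ≠ 0 := by
    refine mul_ne_zero (Finset.prod_ne_zero_iff.2 fun g _ => mul_ne_zero (hH g.1 g.2)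
      (hcoef _ (hQ0 g.1 g.2)).choose_spec) (Finset.prod_ne_zero_iff.2 fun q _ =>
        mul_ne_zero (hx q) (hy q))
  -- `J` large
  let N1 : ℕ := FF.sup fun g => (Q g).support.card
  let Dg : ℕ := FF.sup fun g => (Q g).totalDegree
  have hUa : ∀ᶠ J in atTop, ∀ q : r, ∀ φ, Φ J φ → ∀ p : Pl K,
      Pool.Agent.Helper65.CL.Bad Λ J p →
      (∀ m, vl p (φ (coeff m (a q))) ≤ 1) ∧ ∃ m, vl p (φ (coeff m (a q))) = 1 := by
    rw [Filter.eventually_all]
    exact hUa'
  have hG' : ∀ᶠ J in atTop, ∀ g ∈ G, ∀ m ∈ g.support, ∀ φ, Φ J φ → ∀ p : Pl K,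
      Pool.Agent.Helper65.CL.Bad Λ J p → vl p (φ (coeff m g)) ≤ 1 := by
    rw [Filter.eventually_all_finset]
    intro g hg
    rw [Filter.eventually_all_finset]
    exact fun m _ => hG g hg m
  obtain ⟨J0, hJ0⟩ := eventually_atTop.1 (hUa.and (hnr.and (hG'.and (ev_of (exists_ucL K hΛ n N1)))))
  obtain ⟨J, hJ, hD⟩ := hE (Fintype.card {g // g ∈ FF} + Fintype.card (Fin 0)) Dg (max J0 J1)
  obtain ⟨kU, knr, kG, kuc⟩ := hJ0 J ((le_max_left _ _).trans hJ)
  refine ⟨J, (le_max_right _ _).trans hJ, fun f0 hf0 => ?_⟩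
  -- the point of the base
  obtain ⟨m0, hm0⟩ := ne_zero_iff.1 (mul_ne_zero hf0 (Finset.prod_ne_zero_iff.2
    fun q (_ : q ∈ Finset.univ) => ha0 q))
  obtain ⟨φ, hφ, hφH⟩ := knr (H0 * coeff m0 (f0 * ∏ q, a q)) (mul_ne_zero hH0 hm0)
  rw [map_mul] at hφH
  have hφ0 : φ H0 ≠ 0 := left_ne_zero_of_mul hφH
  have hφm : φ (coeff m0 (f0 * ∏ q, a q)) ≠ 0 := right_ne_zero_of_mul hφH
  rw [map_mul, map_prod, map_prod] at hφ0
  have hφ1 : ∀ g (hg : g ∈ FF), φ (H g hg) ≠ 0 ∧ ∃ m, φ (coeff m (Q g)) ≠ 0 := by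
    intro g hg
    have h1 := Finset.prod_ne_zero_iff.1 (left_ne_zero_of_mul hφ0) ⟨g, hg⟩ (Finset.mem_attach _ _)
    rw [map_mul] at h1
    exact ⟨left_ne_zero_of_mul h1, _, right_ne_zero_of_mul h1⟩
  have hφ2 : ∀ q, φ (x q) ≠ 0 ∧ φ (y q) ≠ 0 := by
    intro q
    have h1 := Finset.prod_ne_zero_iff.1 (right_ne_zero_of_mul hφ0) q (Finset.mem_univ q)
    rw [map_mul] at h1
    exact ⟨left_ne_zero_of_mul h1, right_ne_zero_of_mul h1⟩
  have hQφ0 : ∀ g ∈ FF, map φ (Q g) ≠ 0 := by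
    intro g hg
    obtain ⟨m, hm⟩ := (hφ1 g hg).2
    rw [ne_zero_iff]
    exact ⟨m, by rw [coeff_map]; exact hm⟩
  have hsc : ∀ g : {g // g ∈ FF}, ∃ l : K, l ≠ 0 ∧ ∀ p : Pl K, Pool.Agent.Helper65.CL.Bad Λ J p →
      UC p (C l * map φ (Q g.1)) := by
    intro g
    refine kuc _ (hQφ0 g.1 g.2) ?_
    refine (Finset.card_le_card (support_map_subset _ _)).trans ?_
    exact Finset.le_sup (f := fun g => (Q g).support.card) g.2
  choose l hl0 hl using hsc
  let l' : MvPolynomial (Fin n) L → K := fun g => if hg : g ∈ FF then l ⟨g, hg⟩ else 1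
  have hl' : ∀ g (hg : g ∈ FF), l' g = l ⟨g, hg⟩ := fun g hg => dif_pos hg
  obtain ⟨t, htH, htp⟩ := triClaim2L hD n {g // g ∈ FF} (Fin 0)
    (fun g => C (l g) * map φ (Q g.1)) (fun k => k.elim0)
    (map φ (f0 * ∏ q, a q)) le_rfl
    (fun g => TF.smul (hl0 g) n _ (hHφ g.1 g.2 φ (hφ1 g.1 g.2).1))
    (fun k => k.elim0)
    (by
      intro g j
      refine (degreeOf_le_totalDegree _ j).trans ?_
      have h1 : (C (l g) * map φ (Q g.1)).totalDegree ≤ (Q g.1).totalDegree := by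
        refine (totalDegree_mul _ _).trans ?_
        rw [totalDegree_C, zero_add]
        exact Finset.sup_mono (support_map_subset _ _)
      exact h1.trans (Finset.le_sup (f := fun g => (Q g).totalDegree) g.2))
    (fun k => k.elim0)
    (fun p hp g => hl g p hp)
    (fun p hp k => k.elim0)
    (by
      rw [ne_zero_iff]
      exact ⟨m0, by rw [coeff_map]; exact hφm⟩)
  rw [map_mul, map_mul, map_prod, map_prod] at htH
  refine ⟨φ, t, hφ, left_ne_zero_of_mul htH, fun q =>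
    ⟨Finset.prod_ne_zero_iff.1 (right_ne_zero_of_mul htH) q (Finset.mem_univ q), fun p hp => ?_⟩,
    fun p hp => ⟨(htp p hp).1, fun g hg => ?_⟩⟩
  swap
  · refine vl_eval_le_one (fun m => ?_) (htp p hp).1
    rw [coeff_map]
    by_cases hm : m ∈ g.support
    · exact kG g hg m hm φ hφ p hp
    · rw [notMem_support_iff.1 hm, map_zero, map_zero]
      exact zero_le_one
  have hUC : UC p (map φ (a q)) := by
    obtain ⟨h1, m, hc⟩ := kU q φ hφ p hp
    refine ⟨fun m => ?_, m, ?_⟩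
    · rw [coeff_map]
      exact h1 _
    · rw [coeff_map]
      exact hc
  have hrel : C (φ (y q)) * map φ (a q) =
      C (φ (x q)) * ((M q).map fun g => map φ (Q g)).prod := by
    have h1 := congrArg (MvPolynomial.map φ) (hxy q)
    rw [map_mul, map_mul, map_C, map_C, map_multiset_prod, Multiset.map_map] at h1
    exact h1
  refine vl_eval_of_fact (M q) (fun g => map φ (Q g)) l' (fun g hg => ?_) hUC
    (hφ2 q).2 hrel (fun g hg => ?_) (fun g hg => ?_)
  · rw [hl' g (hM q g hg)]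
    exact hl0 _
  · rw [hl' g (hM q g hg)]
    exact hl ⟨g, hM q g hg⟩ p hp
  · rw [hl' g (hM q g hg)]
    exact (htp p hp).2.1 ⟨g, hM q g hg⟩

end Pool.Agent.Helper83.BR
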