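import Mathlib

/-!
# BR, quadric factors: quaternion algebras with invertible slots are Azumaya algebras
-/

set_option autoImplicit false

namespace Pool.Agent.Helper83.BR

open Quaternion TensorProduct MulOpposite

variable {R : Type} [CommRing R] {a b : R}

/-- the basis element `i` -/
def qi : QuaternionAlgebra R a 0 b := ⟨0, 1, 0, 0⟩

/-- the basis element `j` -/
def qj : QuaternionAlgebra R a 0 b := ⟨0, 0, 1, 0⟩

/-- the basis element `k` -/
def qk : QuaternionAlgebra R a 0 b := ⟨0, 0, 0, 1⟩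

/-- four times the real part -/
theorem re_four {α β : R} (hα : a * α = 1) (hβ : b * β = 1) (y : QuaternionAlgebra R a 0 b) :
    (4 * y.re) • (1 : QuaternionAlgebra R a 0 b) =
      y + α • (qi * y * qi) + β • (qj * y * qj) - (α * β) • (qk * y * qk) := by
  have h : a * b * (α * β) = 1 := by
    rw [mul_mul_mul_comm, hα, hβ, mul_one]
  ext
  · simp [qi, qj, qk]
    linear_combination (-y.re) * hα + (-y.re) * hβ + (-y.re) * h
  · simp [qi, qj, qk]
    linear_combination (-y.imI) * hα + (y.imI) * hβ + (y.imI) * h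
  · simp [qi, qj, qk]
    linear_combination (y.imJ) * hα - (y.imJ) * hβ + (y.imJ) * h
  · simp [qi, qj, qk]
    linear_combination (y.imK) * hα + (y.imK) * hβ - (y.imK) * h


/-- the real part as a bimodule expression -/
noncomputable def reT (α β h : R) (c d : QuaternionAlgebra R a 0 b) :
    QuaternionAlgebra R a 0 b ⊗[R] (QuaternionAlgebra R a 0 b)ᵐᵒᵖ :=
  (h * h) • ((1 : QuaternionAlgebra R a 0 b) ⊗ₜ[R] op (c * d) +
    α • (qi ⊗ₜ[R] op (c * (qi * d))) + β • (qj ⊗ₜ[R] op (c * (qj * d))) -
    (α * β) • (qk ⊗ₜ[R] op (c * (qk * d))))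

theorem reT_apply {α β h : R} (hα : a * α = 1) (hβ : b * β = 1) (hh : 2 * h = 1)
    (c d x : QuaternionAlgebra R a 0 b) :
    AlgHom.mulLeftRight R (QuaternionAlgebra R a 0 b) (reT α β h c d) x = (x * c).re • d := by
  have h1 := re_four hα hβ (x * c)
  have h2 : (h * h) • ((4 * (x * c).re) • (1 : QuaternionAlgebra R a 0 b)) * d =
      (x * c).re • d := by
    rw [smul_smul, smul_mul_assoc, one_mul]
    congr 1
    linear_combination (x * c).re * (2 * h + 1) * hh
  rw [← h2, h1]
  unfold reT
  simp only [map_smul, map_add, map_sub, LinearMap.smul_apply, LinearMap.add_apply,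
    LinearMap.sub_apply, AlgHom.mulLeftRight_apply, unop_op, one_mul, smul_mul_assoc, add_mul,
    sub_mul, mul_assoc]

theorem decomp {α β : R} (hα : a * α = 1) (hβ : b * β = 1) (x : QuaternionAlgebra R a 0 b) :
    x = (x * 1).re • (1 : QuaternionAlgebra R a 0 b) + (x * (α • qi)).re • qi +
      (x * (β • qj)).re • qj + (x * (-(α * β) • qk)).re • qk := by
  have h : a * b * (α * β) = 1 := by
    rw [mul_mul_mul_comm, hα, hβ, mul_one]
  ext
  · simp [qi, qj, qk]
  · simp [qi, qj, qk]
    linear_combination (-x.imI) * hα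
  · simp [qi, qj, qk]
    linear_combination (-x.imJ) * hβ
  · simp [qi, qj, qk]
    linear_combination (-x.imK) * h

theorem mulLeftRight_surjective {α β h : R} (hα : a * α = 1) (hβ : b * β = 1)
    (hh : 2 * h = 1) :
    Function.Surjective (AlgHom.mulLeftRight R (QuaternionAlgebra R a 0 b)) := by
  intro f
  refine ⟨reT α β h 1 (f 1) + reT α β h (α • qi) (f qi) + reT α β h (β • qj) (f qj) +
    reT α β h (-(α * β) • qk) (f qk), ?_⟩
  ext1 x
  rw [map_add, map_add, map_add, LinearMap.add_apply, LinearMap.add_apply, LinearMap.add_apply,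
    reT_apply hα hβ hh, reT_apply hα hβ hh, reT_apply hα hβ hh, reT_apply hα hβ hh,
    ← map_smul, ← map_smul, ← map_smul, ← map_smul, ← map_add, ← map_add, ← map_add,
    ← decomp hα hβ x]

/-- **Q8.** -/
theorem quat_azumaya (a b : R) (ha : IsUnit a) (hb : IsUnit b)
    (h2 : IsUnit (2 : R)) : IsAzumaya R (QuaternionAlgebra R a 0 b) := by
  obtain ⟨α, hα⟩ := ha.exists_right_inv
  obtain ⟨β, hβ⟩ := hb.exists_right_inv
  obtain ⟨h, hh⟩ := h2.exists_right_inv
  have hs := mulLeftRight_surjective hα hβ hh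
  let bA : Module.Basis (Fin 4) R (QuaternionAlgebra R a 0 b) :=
    QuaternionAlgebra.basisOneIJK a 0 b
  let b1 := bA.tensorProduct (bA.map (opLinearEquiv R))
  let b2 := Module.Basis.linearMap bA bA
  let e : Module.End R (QuaternionAlgebra R a 0 b) ≃ₗ[R]
      QuaternionAlgebra R a 0 b ⊗[R] (QuaternionAlgebra R a 0 b)ᵐᵒᵖ :=
    b2.equiv b1 (Equiv.refl _)
  have hfin : Module.Finite R (QuaternionAlgebra R a 0 b ⊗[R] (QuaternionAlgebra R a 0 b)ᵐᵒᵖ) :=
    Module.Finite.of_basis b1
  have hinj : Function.Injective (AlgHom.mulLeftRight R (QuaternionAlgebra R a 0 b)) := by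
    have h1 : Function.Injective ((e : _ →ₗ[R] _).comp
        (AlgHom.mulLeftRight R (QuaternionAlgebra R a 0 b)).toLinearMap) :=
      OrzechProperty.injective_of_surjective_endomorphism _ (e.surjective.comp hs)
    intro x y hxy
    exact h1 (show e (AlgHom.mulLeftRight R _ x) = e (AlgHom.mulLeftRight R _ y) by rw [hxy])
  exact
    { eq_of_smul_eq_smul := fun {r s} hrs => by
        have h1 := congrArg QuaternionAlgebra.re (hrs (1 : QuaternionAlgebra R a 0 b))
        simpa using h1
      bij := ⟨hinj, hs⟩ }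

end Pool.Agent.Helper83.BR
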